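import Mathlib
import Pool.Agent.Y928.PS.Up
import Pool.Agent.Results.MP_e58d4b_co.StrictlyBetween

/-!
# Partial shattering by permutations: a polynomial saving over `log n`

For all `k ≥ 6` and `t ≤ 21` every `k`-subset of `[n]` can be `t`-shattered by a family of
`O((log n)^(3/4) (log log n)^(1/4))` permutations of `[n]`, with one constant, while
`f_6(n,21) / √(log n) → ∞`. So `f_6(n,21)` is `Θ` of none of the functions `1`, `log log n`,
`√(log n)`, `log n`, and it is smaller than `log n` by a factor `(log n)^(1/4 - o(1))`.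

The families are the rich families of the project PS (`S_RICH`), with the numbers of blocks and
of groups of blocks growing with `n`.
-/

set_option autoImplicit false

namespace Pool.Agent.Results.MP_e58d4b_co.PolynomialSaving

open Finset Filter Asymptotics

/-- The ordering of `X` induced by the permutation `ρ` (viewed as the linear order
`x <_ρ y ↔ ρ x < ρ y`), as a relation on `X`. -/
def inducedOrder {n : ℕ} (ρ : Equiv.Perm (Fin n)) (X : Finset (Fin n)) : X → X → Prop :=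
  fun x y => ρ x < ρ y

/-- The family `P` `t`-shatters `X`: its members induce at least `t` distinct orderings of `X`. -/
def Shatters {n : ℕ} (t : ℕ) (P : Finset (Equiv.Perm (Fin n))) (X : Finset (Fin n)) : Prop :=
  t ≤ ((fun ρ : Equiv.Perm (Fin n) => inducedOrder ρ X) '' (P : Set (Equiv.Perm (Fin n)))).ncard

/-- `f k n t` is the minimum size of a family of permutations of `[n]` that `t`-shatters every
`k`-element subset. -/
noncomputable def f (k n t : ℕ) : ℕ :=
  sInf {s | ∃ P : Finset (Equiv.Perm (Fin n)), P.card = s ∧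
    ∀ X : Finset (Fin n), X.card = k → Shatters t P X}

/-- (1) `f_6(n,21) / √(log n) → ∞`; (2) `f_k(n,t) ≤ C (log n)^(3/4) (log log n)^(1/4)` for all
`k ≥ 6` and `t ≤ 21`; (3) the answer to Q1 is negative, as `f_6(n,21)` shows. -/
theorem result :
    (∀ C : ℝ, ∃ n₀ : ℕ, ∀ n ≥ n₀, C * √(Real.log n) ≤ (f 6 n 21 : ℝ)) ∧
    (∃ C : ℝ, 0 < C ∧ ∃ n₀ : ℕ, ∀ n ≥ n₀, ∀ k t : ℕ, 6 ≤ k → t ≤ 21 →
      (f k n t : ℝ) ≤ C * Real.log n ^ (3 / 4 : ℝ) * Real.log (Real.log n) ^ (1 / 4 : ℝ)) ∧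
    (¬ ((fun n : ℕ => (f 6 n 21 : ℝ)) =Θ[atTop] (fun _ : ℕ => (1 : ℝ))) ∧
      ¬ ((fun n : ℕ => (f 6 n 21 : ℝ)) =Θ[atTop] (fun n : ℕ => Real.log (Real.log n))) ∧
      ¬ ((fun n : ℕ => (f 6 n 21 : ℝ)) =Θ[atTop] (fun n : ℕ => √(Real.log n))) ∧
      ¬ ((fun n : ℕ => (f 6 n 21 : ℝ)) =Θ[atTop] (fun n : ℕ => Real.log n))) := by
  obtain ⟨h1, h2, -⟩ := Pool.Agent.Results.MP_e58d4b_co.StrictlyBetween.result
  refine ⟨h1, ?_, W926.PS.four h1 h2⟩
  exact Pool.Agent.Y928.PS.Up.upper34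
    (W368.PS.rich Pool.Agent.W554.PS.gl Pool.Agent.W978.PS.wt Pool.Agent.W405.PS.univ_fam)
    StrictlyBetween.hCnt Pool.Agent.W214.PS.rank Pool.Agent.W515.PS.Conv.conv

end Pool.Agent.Results.MP_e58d4b_co.PolynomialSaving
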